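import Mathlib
import Pool.Agent.H.MP_440a65_co.A

set_option autoImplicit false

namespace Pool.Agent.Results.MP_440a65_co.All

open Finset Pool.Agent.H.MP_440a65_co

section
variable {V : Type} [Fintype V] [DecidableEq V] (G : SimpleGraph V) [DecidableRel G.Adj]

/-- imbalance as a function on unordered pairs -/
def imb : Sym2 V → ℕ :=
  Sym2.lift ⟨fun u v => Nat.dist (G.degree u) (G.degree v), fun _ _ => Nat.dist_comm _ _⟩

omit [DecidableEq V] in
lemma imb_mk (u v : V) : imb G s(u, v) = Nat.dist (G.degree u) (G.degree v) := rfl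

lemma card_inc (w : V) : (G.edgeFinset.filter (fun e => w ∈ e)).card = G.degree w := by
  rw [← G.card_incidenceFinset_eq_degree, G.incidenceFinset_eq_filter]

lemma imb_even : Even (∑ e ∈ G.edgeFinset, imb G e) := by
  have h1 : ∀ e ∈ G.edgeFinset,
      imb G e ≡ ∑ w : V, (if w ∈ e then G.degree w else 0) [MOD 2] := by
    intro e he
    induction e using Sym2.ind with
    | _ u v =>
      have huv : u ≠ v := (SimpleGraph.mem_edgeFinset.1 he).ne
      rw [← sum_filter]
      have : univ.filter (fun w => w ∈ s(u, v)) = {u, v} := by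
        ext w; simp
      rw [this, sum_pair huv, imb_mk]
      unfold Nat.dist Nat.ModEq
      omega
  have h2 := Nat.ModEq.sum h1
  rw [sum_comm] at h2
  have h3 : ∀ w ∈ (univ : Finset V),
      ∑ e ∈ G.edgeFinset, (if w ∈ e then G.degree w else 0) ≡ G.degree w [MOD 2] := by
    intro w _
    rw [← sum_filter, sum_const, card_inc, smul_eq_mul]
    rcases Nat.even_or_odd' (G.degree w) with ⟨k, h | h⟩ <;> rw [h] <;> unfold Nat.ModEq
    · have : 2 * k * (2 * k) = 2 * (2 * k * k) := by ring
      omega
    · have : (2 * k + 1) * (2 * k + 1) = 2 * (2 * k * k + 2 * k) + 1 := by ring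
      omega
  have h4 := h2.trans (Nat.ModEq.sum h3)
  rw [SimpleGraph.sum_degrees_eq_twice_card_edges] at h4
  unfold Nat.ModEq at h4
  rw [Nat.even_iff]
  omega

lemma arith (a b y z k : ℕ) (h : a + b ≤ y + 1 + z) (hz : z ≤ k) (hk : a + b = 0 ∨ 2 ≤ k) :
    a * b ≤ (a + b) * y + (k - 1) * z := by
  rcases hk with hk | hk
  · have : a = 0 := by omega
    subst this; simp
  obtain ⟨k, rfl⟩ : ∃ m, k = m + 1 := ⟨k - 1, by omega⟩
  rw [Nat.add_sub_cancel]
  have h4 : 4 * (a * b) ≤ (a + b) * (a + b) := by nlinarith [sq_nonneg ((a : ℤ) - b)]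
  by_cases hy : a + b ≤ 4 * y
  · have : (a + b) * (a + b) ≤ (a + b) * (4 * y) := Nat.mul_le_mul_left _ hy
    nlinarith [Nat.zero_le (k * z)]
  · have h5 : (a + b) * (a + b) ≤ 4 * ((a + b) * y) + (z + 1) * (z + 1) := by
      set s := a + b
      have h6 : (s : ℤ) ≤ y + 1 + z := by exact_mod_cast h
      have h7 : 4 * (y : ℤ) < s := by push Not at hy; exact_mod_cast hy
      have h8 : (s : ℤ) * (s - 4 * y) ≤ (y + 1 + z) * (y + 1 + z - 4 * y) :=
        mul_le_mul h6 (by linarith) (by linarith) (by positivity)
      have h9 : (0 : ℤ) ≤ y := by positivity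
      have h10 : (0 : ℤ) ≤ z := by positivity
      have : (s : ℤ) * s ≤ 4 * (s * y) + (z + 1) * (z + 1) := by nlinarith
      exact_mod_cast this
    have h6 : (z + 1) * (z + 1) ≤ 4 * (k * z) + 3 := by
      rcases Nat.lt_or_ge z 3 with hz3 | hz3
      · interval_cases z <;> omega
      · have : (z - 1) * z ≤ k * z := Nat.mul_le_mul_right _ (by omega)
        obtain ⟨t, rfl⟩ : ∃ t, z = t + 3 := ⟨z - 3, by omega⟩
        have e : t + 3 - 1 = t + 2 := by omega
        rw [e] at this
        nlinarith
    omega

lemma main_ineq (hG : ∀ u v, G.Adj u v → G.degree u ≠ G.degree v)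
    (x : V) (hx : ∀ v, G.degree v ≤ G.degree x) (S : Finset (Sym2 V)) (hS : S ⊆ G.edgeFinset)
    (hk : S.card + 1 ≤ G.degree x) (hk1 : 1 ≤ S.card) (hi : ∀ e ∈ S, S.card ≤ imb G e) :
    S.card * G.degree x ≤ ∑ e ∈ G.edgeFinset, min S.card (imb G e) := by
  set k := S.card with hkd
  set D := G.degree x with hD
  set N := G.neighborFinset x with hN
  set bad := N.filter (fun w => D < G.degree w + k) with hbad
  set good := N.filter (fun w => ¬ D < G.degree w + k) with hgood
  set E0 := G.edgeFinset.filter (fun e => ¬ x ∈ e) with hE0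
  have hNlt : ∀ w ∈ N, G.degree w < D := by
    intro w hw
    rw [hN, SimpleGraph.mem_neighborFinset] at hw
    exact lt_of_le_of_ne (hx w) (hG x w hw).symm
  have hinj : Set.InjOn (fun w => s(x, w)) (N : Set V) := by
    intro a _ b _ h
    exact Sym2.congr_right.1 h
  have hE1 : G.edgeFinset.filter (fun e => x ∈ e) = N.image (fun w => s(x, w)) := by
    ext e
    simp only [mem_filter, mem_image, hN, SimpleGraph.mem_neighborFinset,
      SimpleGraph.mem_edgeFinset]
    constructor
    · rintro ⟨he, hxe⟩
      obtain ⟨w, rfl⟩ := Sym2.mem_iff_exists.1 hxe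
      exact ⟨w, he, rfl⟩
    · rintro ⟨w, hw, rfl⟩
      exact ⟨hw, Sym2.mem_mk_left _ _⟩
  have hsplit : ∑ e ∈ G.edgeFinset, min k (imb G e) =
      ∑ w ∈ N, min k (imb G s(x, w)) + ∑ e ∈ E0, min k (imb G e) := by
    rw [← sum_filter_add_sum_filter_not G.edgeFinset (fun e => x ∈ e), hE1, sum_image hinj]
  have hcN : bad.card + good.card = D := by
    rw [hbad, hgood, card_filter_add_card_filter_not, hN,
      SimpleGraph.card_neighborFinset_eq_degree]
  have hA : ∑ w ∈ N, min k (imb G s(x, w)) + ∑ w ∈ bad, G.degree w =
      good.card * k + bad.card * D := by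
    rw [← sum_filter_add_sum_filter_not N (fun w => D < G.degree w + k), ← hbad, ← hgood]
    have e1 : ∑ w ∈ good, min k (imb G s(x, w)) = good.card * k := by
      rw [← smul_eq_mul, ← sum_const]
      refine sum_congr rfl fun w hw => ?_
      rw [hgood, mem_filter] at hw
      have := hw.2
      rw [imb_mk]; unfold Nat.dist; omega
    have e2 : ∑ w ∈ bad, min k (imb G s(x, w)) + ∑ w ∈ bad, G.degree w = bad.card * D := by
      rw [← smul_eq_mul, ← sum_const, ← sum_add_distrib]
      refine sum_congr rfl fun w hw => ?_
      rw [hbad, mem_filter] at hw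
      have := hw.2
      have := hNlt w hw.1
      rw [imb_mk]; unfold Nat.dist; omega
    omega
  have hB : ∑ e ∈ E0, (bad.filter (fun w => w ∈ e)).card + bad.card =
      ∑ w ∈ bad, G.degree w := by
    simp only [card_filter]
    rw [sum_comm, card_eq_sum_ones bad, ← sum_add_distrib]
    refine sum_congr rfl fun w hw => ?_
    rw [← card_filter, ← card_inc G w]
    have hw' : G.Adj x w := by
      rw [hbad, mem_filter, hN, SimpleGraph.mem_neighborFinset] at hw
      exact hw.1
    have : G.edgeFinset.filter (fun e => w ∈ e) =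
        insert s(x, w) (E0.filter (fun e => w ∈ e)) := by
      ext e
      simp only [hE0, mem_filter, mem_insert, SimpleGraph.mem_edgeFinset]
      constructor
      · rintro ⟨he, hwe⟩
        by_cases hxe : x ∈ e
        · exact Or.inl ((Sym2.mem_and_mem_iff hw'.ne).1 ⟨hxe, hwe⟩)
        · exact Or.inr ⟨⟨he, hxe⟩, hwe⟩
      · rintro (rfl | h)
        · exact ⟨hw', Sym2.mem_mk_right _ _⟩
        · exact ⟨h.1.1, h.2⟩
    rw [this, card_insert_of_notMem]
    simp [hE0]
  set be := bad.filter (fun w => Even (G.degree w)) with hbe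
  set bo := bad.filter (fun w => ¬ Even (G.degree w)) with hbo
  set E1 := (be ×ˢ bo).image (fun p : V × V => s(p.1, p.2)) with hE1d
  have hcE1 : E1.card ≤ be.card * bo.card := by
    rw [← card_product]; exact card_image_le
  have hcb : be.card + bo.card = bad.card := card_filter_add_card_filter_not _
  have hpt : ∀ e ∈ E0, (bad.filter (fun w => w ∈ e)).card + (if e ∈ S then k - 1 else 0) ≤
      min k (imb G e) + (if e ∈ E1 then 1 else 0) := by
    intro e he
    induction e using Sym2.ind with
    | _ u v =>
      rw [hE0, mem_filter, SimpleGraph.mem_edgeFinset, SimpleGraph.mem_edgeSet] at he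
      have huv := he.1
      have hd := hG u v huv
      have hS' := hi s(u, v)
      rw [imb_mk] at hS' ⊢
      by_cases hb : u ∈ bad ∧ v ∈ bad
      · have c2 : (bad.filter (fun w => w ∈ s(u, v))).card ≤ 2 := by
          refine le_trans (card_le_card (t := {u, v}) ?_) card_le_two
          intro w hw
          rw [mem_filter] at hw
          simpa using hw.2
        have hu := hb.1
        have hv := hb.2
        rw [hbad, mem_filter] at hu hv
        have := hNlt u hu.1
        have := hNlt v hv.1
        have hu2 := hu.2
        have hv2 := hv.2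
        have hnS : s(u, v) ∉ S := fun h => by
          have := hS' h; unfold Nat.dist at this; omega
        rw [if_neg hnS]
        by_cases h1 : Nat.dist (G.degree u) (G.degree v) = 1
        · have : s(u, v) ∈ E1 := by
            rw [hE1d, mem_image]
            by_cases hev : Even (G.degree u)
            · refine ⟨(u, v), ?_, rfl⟩
              refine mem_product.2 ⟨mem_filter.2 ⟨hb.1, hev⟩, mem_filter.2 ⟨hb.2, ?_⟩⟩
              rw [Nat.even_iff] at *
              unfold Nat.dist at h1
              dsimp only
              omega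
            · refine ⟨(v, u), ?_, Sym2.eq_swap⟩
              refine mem_product.2 ⟨mem_filter.2 ⟨hb.2, ?_⟩, mem_filter.2 ⟨hb.1, hev⟩⟩
              rw [Nat.even_iff] at *
              unfold Nat.dist at h1
              dsimp only
              omega
          rw [if_pos this]
          omega
        · unfold Nat.dist at *
          omega
      · have c1 : (bad.filter (fun w => w ∈ s(u, v))).card ≤ 1 := by
          rw [card_le_one]
          intro a ha b hb'
          rw [mem_filter, Sym2.mem_iff] at ha hb'
          rcases ha with ⟨ha, rfl | rfl⟩ <;> rcases hb' with ⟨hb', rfl | rfl⟩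
          · rfl
          · exact absurd ⟨ha, hb'⟩ hb
          · exact absurd ⟨hb', ha⟩ hb
          · rfl
        by_cases hs : s(u, v) ∈ S
        · have := hS' hs
          rw [if_pos hs]
          omega
        · rw [if_neg hs]
          unfold Nat.dist
          omega
  have hC := sum_le_sum hpt
  rw [sum_add_distrib, sum_add_distrib, ← sum_filter, ← sum_filter, sum_const, sum_const,
    smul_eq_mul, smul_eq_mul, mul_one] at hC
  set z := (E0.filter (fun e => e ∈ S)).card with hz
  have hz1 : z ≤ k := card_le_card fun e he => (mem_filter.1 he).2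
  have hz2 : k ≤ good.card + z := by
    have : S ⊆ good.image (fun w => s(x, w)) ∪ E0.filter (fun e => e ∈ S) := by
      intro e he
      rw [mem_union]
      by_cases hxe : x ∈ e
      · left
        have : e ∈ N.image (fun w => s(x, w)) := by
          rw [← hE1, mem_filter]; exact ⟨hS he, hxe⟩
        rw [mem_image] at this ⊢
        obtain ⟨w, hw, rfl⟩ := this
        refine ⟨w, ?_, rfl⟩
        rw [hgood, mem_filter]
        refine ⟨hw, ?_⟩
        have := hi _ he
        have := hNlt w hw
        rw [imb_mk] at *
        unfold Nat.dist at *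
        omega
      · right
        rw [mem_filter, hE0, mem_filter]
        exact ⟨⟨hS he, hxe⟩, he⟩
    have h1 := (card_le_card this).trans (card_union_le _ _)
    have h2 : (good.image (fun w => s(x, w))).card ≤ good.card := card_image_le
    omega
  have hE1' : (E0.filter (fun e => e ∈ E1)).card ≤ E1.card :=
    card_le_card fun e he => (mem_filter.1 he).2
  obtain ⟨y, hy⟩ : ∃ y, D = k + 1 + y := ⟨D - k - 1, by omega⟩
  have hk2 : be.card + bo.card = 0 ∨ 2 ≤ k := by
    by_cases h : bad.card = 0
    · left; omega
    · right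
      obtain ⟨w, hw⟩ := card_pos.1 (Nat.pos_of_ne_zero h)
      rw [hbad, mem_filter] at hw
      have := hNlt w hw.1
      have := hw.2
      omega
  have hF := arith be.card bo.card y z k (by omega) hz1 hk2
  rw [hcb] at hF
  have e1 : k * D = good.card * k + bad.card * k := by rw [← hcN]; ring
  have e2 : bad.card * D = bad.card * k + bad.card + bad.card * y := by rw [hy]; ring
  rw [mul_comm z] at hC
  omega

end

/-- The imbalance conjecture. -/
theorem result (V : Type) [Fintype V] [DecidableEq V] (G : SimpleGraph V) [DecidableRel G.Adj]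
    (hG : ∀ u v, G.Adj u v → 0 < |(G.degree u : ℤ) - (G.degree v : ℤ)|) :
    ∃ H : SimpleGraph G.edgeSet, ∀ (u v : V) (h : G.Adj u v),
      ((H.neighborSet ⟨s(u, v), h⟩).ncard : ℤ) = |(G.degree u : ℤ) - (G.degree v : ℤ)| := by
  classical
  have hG' : ∀ u v, G.Adj u v → G.degree u ≠ G.degree v := by
    intro u v h e
    have := hG u v h
    rw [e] at this
    simp at this
  have hsum : ∀ f : Sym2 V → ℕ, ∑ e : G.edgeSet, f e = ∑ e ∈ G.edgeFinset, f e := by
    intro f
    exact (sum_subtype G.edgeFinset (fun e => SimpleGraph.mem_edgeFinset) f).symm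
  obtain ⟨H, hH⟩ := erdos_gallai' (V := G.edgeSet) (fun e => imb G e)
    (by rw [hsum (imb G)]; exact imb_even G) (by
      intro S hne hS
      obtain ⟨e0, he0⟩ := hne
      have hV : (univ : Finset V).Nonempty := ⟨(Quot.out e0.1).1, mem_univ _⟩
      obtain ⟨x, -, hx⟩ := exists_max_image univ (fun v => G.degree v) hV
      have hx' : ∀ v, G.degree v ≤ G.degree x := fun v => hx v (mem_univ v)
      have hub : ∀ e : G.edgeSet, imb G e + 1 ≤ G.degree x := by
        rintro ⟨e, he⟩
        induction e using Sym2.ind with
        | _ u v =>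
          have h : G.Adj u v := he
          have := h.degree_pos_left
          have := h.degree_pos_right
          have := hx' u
          have := hx' v
          show Nat.dist (G.degree u) (G.degree v) + 1 ≤ _
          unfold Nat.dist
          omega
      have hc : (S.map (Function.Embedding.subtype _)).card = S.card := card_map _
      have hm := main_ineq G hG' x hx' (S.map (Function.Embedding.subtype _))
        (by
          intro e he
          rw [mem_map] at he
          obtain ⟨a, _, rfl⟩ := he
          exact SimpleGraph.mem_edgeFinset.2 a.2)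
        (by have := hS e0 he0; have := hub e0; omega)
        (by rw [hc]; exact card_pos.2 ⟨e0, he0⟩)
        (by
          intro e he
          rw [mem_map] at he
          obtain ⟨a, ha, rfl⟩ := he
          rw [hc]; exact hS a ha)
      rw [hc, ← hsum (fun e => min S.card (imb G e)), ← sum_add_sum_compl S] at hm
      have h1 : ∑ e ∈ S, min S.card (imb G e) ≤ S.card * S.card := by
        rw [← smul_eq_mul, ← sum_const]
        exact sum_le_sum fun e _ => min_le_left _ _
      have h2 : ∑ e ∈ S, (imb G e + 1) ≤ S.card * G.degree x := by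
        rw [← smul_eq_mul, ← sum_const]
        exact sum_le_sum fun e _ => hub e
      rw [sum_add_distrib, sum_const, smul_eq_mul, mul_one] at h2
      have h3 : S.card * (S.card - 1) + S.card = S.card * S.card := by
        cases S.card with
        | zero => simp
        | succ n => simp; ring
      omega)
  refine ⟨H, fun u v h => ?_⟩
  have := hH ⟨s(u, v), h⟩
  have e : H.neighborSet ⟨s(u, v), h⟩ = (nb H ⟨s(u, v), h⟩ : Set G.edgeSet) := by
    ext w; simp [mem_nb]
  rw [e, Set.ncard_coe_finset]
  unfold dg at this
  rw [this]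
  show ((Nat.dist (G.degree u) (G.degree v) : ℕ) : ℤ) = _
  unfold Nat.dist
  rcases le_total (G.degree u) (G.degree v) with h' | h'
  · rw [abs_of_nonpos (by omega)]; omega
  · rw [abs_of_nonneg (by omega)]; omega

end Pool.Agent.Results.MP_440a65_co.All
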